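import Pool.Agent.H24.CL.Targets

/-!
# Row NW of the board clv_modules: the diagonal solutions modulo a prime (helper72)
-/

set_option autoImplicit false

open Finset MeasureTheory

namespace Pool.Agent.H72.CLV

open Pool.Agent.H24.CL

section Newton

variable {R : Type} [Field R] {ι : Type} [Fintype ι]

/-- Two tuples with the same multiset of values differ by a permutation of the index set. -/
theorem exists_perm_of_map_eq (x y : ι → R)
    (h : (univ : Finset ι).val.map x = (univ : Finset ι).val.map y) :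
    ∃ σ : Equiv.Perm ι, y = x ∘ σ := by
  classical
  have hcard : ∀ a : R, Fintype.card {i // y i = a} = Fintype.card {i // x i = a} := by
    intro a
    have h1 : ∀ z : ι → R, Fintype.card {i // z i = a} =
        Multiset.count a ((univ : Finset ι).val.map z) := by
      intro z
      rw [Fintype.card_subtype, Multiset.count_map]
      rw [Finset.card_def, Finset.filter_val]
      congr 1
      exact Multiset.filter_congr (fun i _ => eq_comm)
    rw [h1 y, h1 x, h]
  have e : ∀ a : R, {i // y i = a} ≃ {i // x i = a} := fun a => Fintype.equivOfCardEq (hcard a)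
  let σ : Equiv.Perm ι :=
    (Equiv.sigmaFiberEquiv y).symm.trans ((Equiv.sigmaCongrRight e).trans (Equiv.sigmaFiberEquiv x))
  refine ⟨σ, ?_⟩
  funext i
  simp only [Function.comp]
  have : x (σ i) = y i := by
    simp only [σ, Equiv.trans_apply, Equiv.sigmaFiberEquiv, Equiv.coe_fn_symm_mk,
      Equiv.sigmaCongrRight_apply, Equiv.coe_fn_mk]
    exact (e (y i) ⟨i, rfl⟩).2
  exact this.symm

/-- Newton: equal power sums up to `k` give equal elementary symmetric functions up to `k`. -/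
theorem esymm_eq_of_psum_eq (x y : ι → R) (k : ℕ) (hR : ∀ j : ℕ, 1 ≤ j → j ≤ k → (j : R) ≠ 0)
    (h : ∀ j, 1 ≤ j → j ≤ k → ∑ i, x i ^ j = ∑ i, y i ^ j) :
    ∀ j, j ≤ k → MvPolynomial.aeval x (MvPolynomial.esymm ι R j) =
      MvPolynomial.aeval y (MvPolynomial.esymm ι R j) := by
  intro j
  induction j using Nat.strong_induction_on with
  | _ j ih =>
    intro hj
    rcases Nat.eq_zero_or_pos j with h0 | h0
    · subst h0; simp
    · have key : ∀ z : ι → R, (j : R) * MvPolynomial.aeval z (MvPolynomial.esymm ι R j) =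
          (-1) ^ (j + 1) * ∑ a ∈ antidiagonal j with a.1 < j,
            (-1) ^ a.1 * MvPolynomial.aeval z (MvPolynomial.esymm ι R a.1) * ∑ i, z i ^ a.2 := by
        intro z
        have := congrArg (MvPolynomial.aeval z) (MvPolynomial.mul_esymm_eq_sum ι R j)
        simpa [MvPolynomial.psum, map_sum, map_mul, map_pow] using this
      have hx := key x
      have hy := key y
      have hs : ∑ a ∈ antidiagonal j with a.1 < j,
            (-1) ^ a.1 * MvPolynomial.aeval x (MvPolynomial.esymm ι R a.1) * ∑ i, x i ^ a.2 =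
          ∑ a ∈ antidiagonal j with a.1 < j,
            (-1) ^ a.1 * MvPolynomial.aeval y (MvPolynomial.esymm ι R a.1) * ∑ i, y i ^ a.2 := by
        apply Finset.sum_congr rfl
        intro a ha
        rw [Finset.mem_filter, Finset.HasAntidiagonal.mem_antidiagonal] at ha
        rw [ih a.1 ha.2 (by omega), h a.2 (by omega) (by omega)]
      rw [hs, ← hy] at hx
      exact mul_left_cancel₀ (hR j h0 hj) hx

/-- The monic polynomial with the given roots. -/
noncomputable def rootPoly (x : ι → R) : Polynomial R :=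
  ∏ i, (Polynomial.X - Polynomial.C (x i))

theorem rootPoly_coeff (x : ι → R) {l : ℕ} (hl : l ≤ Fintype.card ι) :
    (rootPoly x).coeff l =
      (-1) ^ (Fintype.card ι - l) * MvPolynomial.aeval x (MvPolynomial.esymm ι R (Fintype.card ι - l)) := by
  classical
  have h := Multiset.prod_X_sub_C_coeff ((univ : Finset ι).val.map x) (k := l)
    (by simpa using hl)
  rw [MvPolynomial.aeval_esymm_eq_multiset_esymm]
  rw [Multiset.map_map, Multiset.card_map, Finset.card_val, Finset.card_univ] at h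
  exact h

theorem rootPoly_natDegree (x : ι → R) :
    (rootPoly x).natDegree = Fintype.card ι := by
  classical
  rw [rootPoly, Polynomial.natDegree_prod_of_monic _ _ (fun i _ => Polynomial.monic_X_sub_C _)]
  simp only [Polynomial.natDegree_X_sub_C, Finset.sum_const, Finset.card_univ, smul_eq_mul, mul_one]

theorem rootPoly_roots (x : ι → R) :
    (rootPoly x).roots = (univ : Finset ι).val.map x := by
  classical
  have := Polynomial.roots_multiset_prod_X_sub_C ((univ : Finset ι).val.map x)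
  rw [Multiset.map_map] at this
  exact this

/-- Newton and Vieta: at most `k` variables are determined by their first `k` power sums. -/
theorem perm_of_psum_eq (x y : ι → R) (k : ℕ) (hR : ∀ j : ℕ, 1 ≤ j → j ≤ k → (j : R) ≠ 0)
    (hk : Fintype.card ι ≤ k)
    (h : ∀ j, 1 ≤ j → j ≤ k → ∑ i, x i ^ j = ∑ i, y i ^ j) :
    ∃ σ : Equiv.Perm ι, y = x ∘ σ := by
  have he := esymm_eq_of_psum_eq x y k hR h
  have hp : rootPoly x = rootPoly y := by
    ext l
    rcases le_or_gt l (Fintype.card ι) with hl | hl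
    · rw [rootPoly_coeff x hl, rootPoly_coeff y hl, he _ (by omega)]
    · rw [Polynomial.coeff_eq_zero_of_natDegree_lt (by rw [rootPoly_natDegree]; exact hl),
        Polynomial.coeff_eq_zero_of_natDegree_lt (by rw [rootPoly_natDegree]; exact hl)]
  apply exists_perm_of_map_eq
  rw [← rootPoly_roots x, ← rootPoly_roots y, hp]

end Newton

/-- the difference of the power sums of two tuples -/
def Sd {k : ℕ} (p p' : Fin k → ℕ) (j : Fin k) : ℤ :=
  ∑ i, (p i : ℤ) ^ (j.val + 1) - ∑ i, (p' i : ℤ) ^ (j.val + 1)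

theorem P_tor (k q : ℕ) (n : Fin k → ℤ) (b : ℕ) :
    P (tor q 1 n : X k) b =
      ∑ j : Fin k, ((((b : ℝ) ^ (j.val + 1) * (n j : ℝ) / (q : ℝ) : ℝ)) : UnitAddCircle) := by
  unfold P tor
  refine Finset.sum_congr rfl fun j _ => ?_
  rw [← AddCircle.coe_nsmul, nsmul_eq_mul, pow_one]
  congr 1
  push_cast
  ring

theorem e_sum (hEX : T_EX) {ι : Type} (s : Finset ι) (g : ι → UnitAddCircle) :
    e (∑ i ∈ s, g i) = ∏ i ∈ s, e (g i) := by
  classical
  obtain ⟨_, hadd, h0, _⟩ := hEX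
  induction s using Finset.induction_on with
  | empty => simpa using h0
  | insert a s ha ih => rw [Finset.sum_insert ha, Finset.prod_insert ha, hadd, ih]

theorem e_phase (hEX : T_EX) (k q : ℕ) (n : Fin k → ℤ) (p p' : Fin k → ℕ) :
    (∏ i, e (P (tor q 1 n : X k) (p i))) *
      (starRingEnd ℂ) (∏ i, e (P (tor q 1 n : X k) (p' i))) =
      ∏ j : Fin k, e ((((n j : ℝ) * ((Sd p p' j : ℤ) : ℝ) / (q : ℝ) : ℝ)) : UnitAddCircle) := by
  have hconj : ∀ x : UnitAddCircle, e (-x) = (starRingEnd ℂ) (e x) := hEX.2.2.2.1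
  rw [← e_sum hEX, ← e_sum hEX, ← hconj, ← hEX.2.1, ← e_sum hEX]
  congr 1
  have h1 : ∀ p : Fin k → ℕ, ∑ i, P (tor q 1 n : X k) (p i) =
      ∑ j : Fin k, (((∑ i, (p i : ℝ) ^ (j.val + 1)) * (n j : ℝ) / (q : ℝ) : ℝ) : UnitAddCircle) := by
    intro p
    simp_rw [P_tor]
    rw [Finset.sum_comm]
    refine Finset.sum_congr rfl fun j _ => ?_
    rw [Finset.sum_mul, Finset.sum_div]
    exact (map_sum (QuotientAddGroup.mk' (AddSubgroup.zmultiples (1 : ℝ))) _ _).symm
  rw [h1 p, h1 p', ← sub_eq_add_neg, ← Finset.sum_sub_distrib]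
  refine Finset.sum_congr rfl fun j _ => ?_
  rw [← AddCircle.coe_sub]
  congr 1
  unfold Sd
  push_cast
  ring

theorem sum_HF (hEX : T_EX) (hTO : T_TO) (k q : ℕ) (hq : 1 ≤ q) (p p' : Fin k → ℕ) :
    ∑ h ∈ HF k q 1, (∏ i, e (P h (p i))) * (starRingEnd ℂ) (∏ i, e (P h (p' i))) =
      if (∀ j, (q : ℤ) ∣ Sd p p' j) then (q : ℂ) ^ k else 0 := by
  classical
  obtain ⟨_, _, _, h4, _, _⟩ := hTO k q hq
  unfold HF
  rw [Finset.sum_image]
  · simp_rw [e_phase hEX]
    have h6 := hEX.2.2.2.2.2.1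
    have h7 : ∀ n : Fin k → ℕ, (∏ j : Fin k,
        e (((((n j : ℤ) : ℝ) * ((Sd p p' j : ℤ) : ℝ) / (q : ℝ) : ℝ)) : UnitAddCircle)) =
        ∏ j : Fin k, (fun (j : Fin k) (m : ℕ) =>
          e ((((m : ℝ) * ((Sd p p' j : ℤ) : ℝ) / (q : ℝ) : ℝ)) : UnitAddCircle)) j (n j) := by
      intro n
      refine Finset.prod_congr rfl fun j _ => ?_
      simp
    have h9 := Finset.prod_univ_sum (fun _ : Fin k => range q) (fun (j : Fin k) (m : ℕ) =>
          e ((((m : ℝ) * ((Sd p p' j : ℤ) : ℝ) / (q : ℝ) : ℝ)) : UnitAddCircle))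
    rw [Finset.sum_congr rfl fun n _ => h7 n]
    simp only [pow_one]
    rw [← h9]
    have h8 : ∀ j : Fin k, ∑ m ∈ range q, (fun (j : Fin k) (m : ℕ) =>
          e ((((m : ℝ) * ((Sd p p' j : ℤ) : ℝ) / (q : ℝ) : ℝ)) : UnitAddCircle)) j m =
          if (q : ℤ) ∣ Sd p p' j then (q : ℂ) else 0 := by
      intro j
      exact h6 q (Sd p p' j) hq
    rw [Finset.prod_congr rfl fun j _ => h8 j]
    by_cases h : ∀ j, (q : ℤ) ∣ Sd p p' j
    · rw [if_pos h, Finset.prod_congr rfl fun j _ => if_pos (h j)]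
      simp
    · rw [if_neg h]
      push Not at h
      obtain ⟨j, hj⟩ := h
      exact Finset.prod_eq_zero (Finset.mem_univ j) (if_neg hj)
  · intro n hn n' hn' hnn
    rw [Finset.mem_coe, Fintype.mem_piFinset] at hn hn'
    have h5 := (h4 1 (fun i => (n i : ℤ)) (fun i => (n' i : ℤ))).1 hnn
    funext i
    have h6 := h5 i
    rw [pow_one] at h6
    have h7 := hn i
    have h8 := hn' i
    rw [Finset.mem_range, pow_one] at h7 h8
    have h9 : (n i : ℤ) ≡ (n' i : ℤ) [ZMOD (q : ℤ)] := (Int.modEq_iff_dvd.2 h6).symm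
    have h10 := Int.natCast_modEq_iff.1 h9
    exact Nat.ModEq.eq_of_lt_of_lt h10 h7 h8

theorem good_perm (k q : ℕ) (hq : q.Prime) (hk : k < q) (p p' : Fin k → ℕ) (hp : ∀ i, p i < q)
    (hp' : ∀ i, p' i < q) (h : ∀ j, (q : ℤ) ∣ Sd p p' j) :
    ∃ σ : Equiv.Perm (Fin k), p' = p ∘ σ := by
  haveI : Fact q.Prime := ⟨hq⟩
  have h1 := perm_of_psum_eq (fun i => (p i : ZMod q)) (fun i => (p' i : ZMod q)) k
    (by
      intro j hj hjk h0
      rw [ZMod.natCast_eq_zero_iff] at h0
      exact absurd (Nat.le_of_dvd hj h0) (by omega))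
    (by simp)
    (by
      intro j hj hjk
      have h2 := h ⟨j - 1, by omega⟩
      have h3 := (ZMod.intCast_zmod_eq_zero_iff_dvd (Sd p p' ⟨j - 1, by omega⟩) q).2 h2
      unfold Sd at h3
      push_cast at h3
      have h4 : j - 1 + 1 = j := by omega
      simp only [h4] at h3
      exact sub_eq_zero.1 h3)
  obtain ⟨σ, hσ⟩ := h1
  refine ⟨σ, ?_⟩
  funext i
  have h5 := congrFun hσ i
  simp only [Function.comp] at h5 ⊢
  rw [ZMod.natCast_eq_natCast_iff] at h5
  exact Nat.ModEq.eq_of_lt_of_lt h5 (hp' i) (hp _)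

/-- NW -/
theorem pf_NW (hEX : T_EX) (hTO : T_TO) : T_NW := by
  classical
  intro k q hq hk D x A hD hA
  have hq1 : 1 ≤ q := hq.one_lt.le
  set PD : Finset (Fin k → ℕ) := Fintype.piFinset fun _ => D with hPD
  have hpow : ∀ h : X k, (∑ b ∈ D, x b * e (P h b)) ^ k =
      ∑ p ∈ PD, (∏ i, x (p i)) * ∏ i, e (P h (p i)) := by
    intro h
    have h1 := Finset.prod_univ_sum (fun _ : Fin k => D) (fun _ b => x b * e (P h b))
    rw [Finset.prod_const, Finset.card_univ, Fintype.card_fin] at h1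
    rw [h1]
    refine Finset.sum_congr rfl fun p _ => ?_
    rw [Finset.prod_mul_distrib]
  have hexp : ∀ h : X k, (((‖∑ b ∈ D, x b * e (P h b)‖ ^ (2 * k) : ℝ)) : ℂ) =
      ∑ p ∈ PD, ∑ p' ∈ PD, ((∏ i, x (p i)) * (starRingEnd ℂ) (∏ i, x (p' i))) *
        ((∏ i, e (P h (p i))) * (starRingEnd ℂ) (∏ i, e (P h (p' i)))) := by
    intro h
    have h1 : (((‖∑ b ∈ D, x b * e (P h b)‖ ^ (2 * k) : ℝ)) : ℂ) =
        (∑ b ∈ D, x b * e (P h b)) ^ k * (starRingEnd ℂ) ((∑ b ∈ D, x b * e (P h b)) ^ k) := by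
      rw [Complex.mul_conj, Complex.normSq_eq_norm_sq, norm_pow, ← pow_mul, mul_comm k 2]
    rw [h1, hpow, map_sum, Finset.sum_mul_sum]
    refine Finset.sum_congr rfl fun p _ => Finset.sum_congr rfl fun p' _ => ?_
    rw [map_mul]
    ring
  have hsum : (((∑ h ∈ HF k q 1, ‖∑ b ∈ D, x b * e (P h b)‖ ^ (2 * k) : ℝ)) : ℂ) =
      ∑ p ∈ PD, ∑ p' ∈ PD, ((∏ i, x (p i)) * (starRingEnd ℂ) (∏ i, x (p' i))) *
        (if (∀ j, (q : ℤ) ∣ Sd p p' j) then (q : ℂ) ^ k else 0) := by
    rw [Complex.ofReal_sum, Finset.sum_congr rfl fun h _ => hexp h, Finset.sum_comm]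
    refine Finset.sum_congr rfl fun p _ => ?_
    rw [Finset.sum_comm]
    refine Finset.sum_congr rfl fun p' _ => ?_
    rw [← Finset.mul_sum, sum_HF hEX hTO k q hq1 p p']
  have hbd : ∀ p ∈ PD, ‖∏ i, x (p i)‖ ≤ A ^ k := by
    intro p hp
    rw [hPD, Fintype.mem_piFinset] at hp
    rw [norm_prod]
    calc ∏ i, ‖x (p i)‖ ≤ ∏ _i : Fin k, A :=
          Finset.prod_le_prod (fun i _ => norm_nonneg _) (fun i _ => hA _ (hp i))
      _ = A ^ k := by simp
  have hcardPD : PD.card = D.card ^ k := by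
    rw [hPD, Fintype.card_piFinset]
    simp
  have hA0 : PD.Nonempty → 0 ≤ A ^ k := fun ⟨p, hp⟩ => le_trans (norm_nonneg _) (hbd p hp)
  have hnn : (0 : ℝ) ≤ ∑ h ∈ HF k q 1, ‖∑ b ∈ D, x b * e (P h b)‖ ^ (2 * k) :=
    Finset.sum_nonneg fun h _ => by positivity
  have hnorm : ∑ h ∈ HF k q 1, ‖∑ b ∈ D, x b * e (P h b)‖ ^ (2 * k) =
      ‖(((∑ h ∈ HF k q 1, ‖∑ b ∈ D, x b * e (P h b)‖ ^ (2 * k) : ℝ)) : ℂ)‖ := by
    rw [Complex.norm_real, Real.norm_of_nonneg hnn]
  rw [hnorm, hsum]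
  have hA2 : A ^ (2 * k) = A ^ k * A ^ k := by rw [two_mul, pow_add]
  calc ‖∑ p ∈ PD, ∑ p' ∈ PD, ((∏ i, x (p i)) * (starRingEnd ℂ) (∏ i, x (p' i))) *
        (if (∀ j, (q : ℤ) ∣ Sd p p' j) then (q : ℂ) ^ k else 0)‖
      ≤ ∑ p ∈ PD, ∑ p' ∈ PD, ‖((∏ i, x (p i)) * (starRingEnd ℂ) (∏ i, x (p' i))) *
        (if (∀ j, (q : ℤ) ∣ Sd p p' j) then (q : ℂ) ^ k else 0)‖ :=
        (norm_sum_le _ _).trans (Finset.sum_le_sum fun p _ => norm_sum_le _ _)
    _ ≤ ∑ p ∈ PD, ∑ p' ∈ PD, (if (∀ j, (q : ℤ) ∣ Sd p p' j) then A ^ (2 * k) * (q : ℝ) ^ k else 0) := by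
        refine Finset.sum_le_sum fun p hp => Finset.sum_le_sum fun p' hp' => ?_
        split_ifs with h
        · rw [norm_mul, norm_mul, RCLike.norm_conj, norm_pow, Complex.norm_natCast, hA2]
          have h1 := hbd p hp
          have h2 := hbd p' hp'
          have h3 := hA0 ⟨p, hp⟩
          exact mul_le_mul_of_nonneg_right (mul_le_mul h1 h2 (norm_nonneg _) h3) (by positivity)
        · simp
    _ ≤ ∑ p ∈ PD, (Nat.factorial k : ℝ) * (A ^ (2 * k) * (q : ℝ) ^ k) := by
        refine Finset.sum_le_sum fun p hp => ?_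
        rw [← Finset.sum_filter, Finset.sum_const, nsmul_eq_mul]
        have hc : (PD.filter fun p' => ∀ j, (q : ℤ) ∣ Sd p p' j).card ≤ Nat.factorial k := by
          have hsub : (PD.filter fun p' => ∀ j, (q : ℤ) ∣ Sd p p' j) ⊆
              (univ : Finset (Equiv.Perm (Fin k))).image
                (fun σ : Equiv.Perm (Fin k) => (fun i => p (σ i) : Fin k → ℕ)) := by
            intro p' hp'
            rw [Finset.mem_filter] at hp'
            have hp1 := hp
            rw [hPD, Fintype.mem_piFinset] at hp1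
            have hp2 := hp'.1
            rw [hPD, Fintype.mem_piFinset] at hp2
            obtain ⟨σ, hσ⟩ := good_perm k q hq hk p p' (fun i => Finset.mem_range.1 (hD (hp1 i)))
              (fun i => Finset.mem_range.1 (hD (hp2 i))) hp'.2
            exact Finset.mem_image.2 ⟨σ, Finset.mem_univ _, hσ.symm⟩
          refine (Finset.card_le_card hsub).trans (Finset.card_image_le.trans ?_)
          rw [Finset.card_univ, Fintype.card_perm, Fintype.card_fin]
        have h0 : (0 : ℝ) ≤ A ^ (2 * k) * (q : ℝ) ^ k := by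
          rw [hA2]
          have := hA0 ⟨p, hp⟩
          positivity
        exact mul_le_mul_of_nonneg_right (by exact_mod_cast hc) h0
    _ = (q : ℝ) ^ k * (Nat.factorial k : ℝ) * (D.card : ℝ) ^ k * A ^ (2 * k) := by
        rw [Finset.sum_const, nsmul_eq_mul, hcardPD]
        push_cast
        ring

end Pool.Agent.H72.CLV
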